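import Mathlib
import Pool.Agent.H131R5.DG3

/-!
# A logarithmic lower bound for the long-range discrete Gaussian chain

For every decay power `α > 2` (in particular for all `α ∈ (2, 3)`) and every inverse temperature
`β > 0` the variance of the height at the origin grows at least logarithmically in the length of
the chain with Dirichlet boundary condition, with an explicit constant.
-/

set_option autoImplicit false

namespace Pool.Agent.Results.MP_57c4e5_pr.LogLowerBound

/-- The configurations on `Λ_n = {-n, …, n}`: integer-valued functions on `ℤ` which vanish outside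
`Λ_n` (Dirichlet boundary condition). -/
abbrev Config (n : ℕ) : Type := {ψ : ℤ → ℤ // ∀ x : ℤ, (n : ℤ) < |x| → ψ x = 0}

/-- The long-range Hamiltonian: the sum over all unordered pairs `{x, y}` of distinct integers
(that is, over the pairs with `x < y`) of `(ψ x - ψ y) ^ 2 / |x - y| ^ α`. -/
noncomputable def hamiltonian (α : ℝ) (ψ : ℤ → ℤ) : ℝ :=
  ∑' p : {p : ℤ × ℤ // p.1 < p.2},
    ((ψ p.1.1 : ℝ) - (ψ p.1.2 : ℝ)) ^ 2 / |(p.1.1 : ℝ) - (p.1.2 : ℝ)| ^ α

/-- The partition function `Z_{n, β}`. -/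
noncomputable def partition (α β : ℝ) (n : ℕ) : ℝ :=
  ∑' ψ : Config n, Real.exp (-β * hamiltonian α ψ.1)

/-- The expectation of the function `F` of the configuration under the discrete Gaussian chain. -/
noncomputable def expectation (α β : ℝ) (n : ℕ) (F : (ℤ → ℤ) → ℝ) : ℝ :=
  (∑' ψ : Config n, F ψ.1 * Real.exp (-β * hamiltonian α ψ.1)) / partition α β n

/-- The variance of the height at the origin. -/
noncomputable def variance (α β : ℝ) (n : ℕ) : ℝ :=
  expectation α β n (fun ψ => (ψ 0 : ℝ) ^ 2) - expectation α β n (fun ψ => (ψ 0 : ℝ)) ^ 2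

open Pool.Agent.H131R5.DG

lemma hamiltonian_eq {α : ℝ} (hα : 1 < α) {Λ : Finset ℤ} {ψ : ℤ → ℤ} (h : ψ ∈ LL Λ) :
    En α ψ = 2 * hamiltonian α ψ := by
  set f : ℤ × ℤ → ℝ := fun p => cf α p * ((ψ p.1 : ℝ) - ψ p.2) ^ 2 with hf
  have hs : Summable f := summable_En hα h
  have hsymm : ∀ p : ℤ × ℤ, f p.swap = f p := by
    intro p
    simp only [hf, cf, Prod.fst_swap, Prod.snd_swap]
    rw [← abs_neg]
    push_cast
    have e1 : -((p.2 : ℝ) - p.1) = p.1 - p.2 := by ring
    rw [e1]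
    ring
  have hdiag : ∀ p : ℤ × ℤ, p.1 = p.2 → f p = 0 := by
    intro p hp
    simp only [hf]
    rw [hp]
    simp
  have hA : Summable (Set.indicator {p : ℤ × ℤ | p.1 < p.2} f) := hs.indicator _
  have hB : Summable (Set.indicator {p : ℤ × ℤ | p.2 < p.1} f) := hs.indicator _
  have hsplit : f = fun p => Set.indicator {p : ℤ × ℤ | p.1 < p.2} f p +
      Set.indicator {p : ℤ × ℤ | p.2 < p.1} f p := by
    funext p
    rcases lt_trichotomy p.1 p.2 with h1 | h1 | h1
    · rw [Set.indicator_of_mem (show p ∈ {p : ℤ × ℤ | p.1 < p.2} from h1),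
        Set.indicator_of_notMem (show p ∉ {p : ℤ × ℤ | p.2 < p.1} from not_lt.2 h1.le), add_zero]
    · rw [Set.indicator_of_notMem (show p ∉ {p : ℤ × ℤ | p.1 < p.2} from not_lt.2 h1.ge),
        Set.indicator_of_notMem (show p ∉ {p : ℤ × ℤ | p.2 < p.1} from not_lt.2 h1.le), add_zero,
        hdiag p h1]
    · rw [Set.indicator_of_notMem (show p ∉ {p : ℤ × ℤ | p.1 < p.2} from not_lt.2 h1.le),
        Set.indicator_of_mem (show p ∈ {p : ℤ × ℤ | p.2 < p.1} from h1), zero_add]
  have hBA : ∑' p, Set.indicator {p : ℤ × ℤ | p.2 < p.1} f p =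
      ∑' p, Set.indicator {p : ℤ × ℤ | p.1 < p.2} f p := by
    rw [← (Equiv.prodComm ℤ ℤ).tsum_eq]
    refine tsum_congr fun p => ?_
    by_cases hp : p.1 < p.2
    · rw [Set.indicator_of_mem (show p ∈ {p : ℤ × ℤ | p.1 < p.2} from hp),
        Set.indicator_of_mem (show (Equiv.prodComm ℤ ℤ) p ∈ {p : ℤ × ℤ | p.2 < p.1} from hp)]
      exact hsymm p
    · rw [Set.indicator_of_notMem (show p ∉ {p : ℤ × ℤ | p.1 < p.2} from hp),
        Set.indicator_of_notMem (show (Equiv.prodComm ℤ ℤ) p ∉ {p : ℤ × ℤ | p.2 < p.1} from hp)]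
  have hA2 : ∑' p, Set.indicator {p : ℤ × ℤ | p.1 < p.2} f p = hamiltonian α ψ := by
    rw [← tsum_subtype]
    unfold hamiltonian
    refine tsum_congr fun p => ?_
    simp only [hf, cf]
    rw [Real.rpow_neg (abs_nonneg _), div_eq_mul_inv, mul_comm]
    push_cast
    rfl
  have : En α ψ = ∑' p, f p := rfl
  rw [this, hsplit, hA.tsum_add hB, hBA, hA2]
  ring

lemma bx_iff (n : ℕ) (φ : ℤ → ℤ) : φ ∈ LL (bx n) ↔ ∀ x : ℤ, (n : ℤ) < |x| → φ x = 0 := by
  rw [mem_LL]
  unfold bx
  constructor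
  · intro h x hx
    apply h
    rw [Finset.mem_Icc, ← abs_le]
    exact not_le.mpr hx
  · intro h x hx
    apply h
    rw [Finset.mem_Icc, ← abs_le] at hx
    exact not_le.mp hx

/-- the identification of configurations -/
def cEquiv (n : ℕ) : LL (bx n) ≃ Config n := Equiv.subtypeEquivRight (bx_iff n)

lemma weight_eq {α : ℝ} (hα : 1 < α) (β : ℝ) (n : ℕ) (φ : LL (bx n)) :
    Real.exp (-β * hamiltonian α (cEquiv n φ).1) = Real.exp (-(β / 2 * En α φ)) := by
  have h := hamiltonian_eq hα φ.2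
  have e : (cEquiv n φ).1 = (φ : ℤ → ℤ) := rfl
  rw [e, h]
  congr 1
  ring

lemma partition_eq {α : ℝ} (hα : 1 < α) (β : ℝ) (n : ℕ) :
    partition α β n = ZZ α (β / 2) (bx n) := by
  unfold partition ZZ
  rw [← (cEquiv n).tsum_eq]
  exact tsum_congr fun φ => weight_eq hα β n φ

lemma second_eq {α : ℝ} (hα : 1 < α) (β : ℝ) (n : ℕ) :
    expectation α β n (fun ψ => (ψ 0 : ℝ) ^ 2) = VV α (β / 2) n := by
  unfold expectation VV
  rw [partition_eq hα]
  congr 1
  unfold SS
  rw [← (cEquiv n).tsum_eq]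
  refine tsum_congr fun φ => ?_
  rw [weight_eq hα]
  rfl

lemma hamiltonian_neg (α : ℝ) (ψ : ℤ → ℤ) : hamiltonian α (fun x => -ψ x) = hamiltonian α ψ := by
  unfold hamiltonian
  refine tsum_congr fun p => ?_
  push_cast
  congr 1
  ring

/-- reflection of the heights -/
def negC (n : ℕ) : Config n ≃ Config n where
  toFun ψ := ⟨fun x => -ψ.1 x, fun x hx => by simp [ψ.2 x hx]⟩
  invFun ψ := ⟨fun x => -ψ.1 x, fun x hx => by simp [ψ.2 x hx]⟩
  left_inv ψ := Subtype.ext (funext fun x => neg_neg _)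
  right_inv ψ := Subtype.ext (funext fun x => neg_neg _)

lemma first_eq (α β : ℝ) (n : ℕ) : expectation α β n (fun ψ => (ψ 0 : ℝ)) = 0 := by
  unfold expectation
  have h : ∑' ψ : Config n, (ψ.1 0 : ℝ) * Real.exp (-β * hamiltonian α ψ.1) =
      -∑' ψ : Config n, (ψ.1 0 : ℝ) * Real.exp (-β * hamiltonian α ψ.1) := by
    conv_lhs => rw [← (negC n).tsum_eq]
    rw [← tsum_neg]
    refine tsum_congr fun ψ => ?_
    have e : ((negC n) ψ).1 = fun x => -ψ.1 x := rfl
    rw [e, hamiltonian_neg]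
    push_cast
    ring
  have h0 : ∑' ψ : Config n, (ψ.1 0 : ℝ) * Real.exp (-β * hamiltonian α ψ.1) = 0 := by linarith
  rw [h0, zero_div]

lemma Kα_eq {α : ℝ} (hα : 2 < α) :
    Kα α = 4 * ∑' z : ℤ, if z = 0 then (0 : ℝ) else |(z : ℝ)| ^ (1 - α) := by
  unfold Kα
  rw [tsum_mul_left]
  congr 1
  refine tsum_congr fun z => ?_
  have e : -(α - 1) = 1 - α := by ring
  split_ifs with h
  · rw [h, e]
    simp only [Int.cast_zero, abs_zero]
    exact Real.zero_rpow (by linarith)
  · rw [e]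

/-- **Logarithmic lower bound.** For all `α > 2`, `β > 0` and `n ≥ 4` the variance of the height at
the origin of the long-range discrete Gaussian chain on `{-n, …, n}` is at least
`exp (-2 β ∑_{z ≠ 0} |z| ^ (1 - α)) / 48 * log n`. -/
theorem result (α β : ℝ) (hα : 2 < α) (hβ : 0 < β) (n : ℕ) (hn : 4 ≤ n) :
    Real.exp (-(2 * β * ∑' z : ℤ, if z = 0 then (0 : ℝ) else |(z : ℝ)| ^ (1 - α))) / 48 *
      Real.log n ≤ variance α β n := by
  unfold variance
  rw [first_eq, second_eq (by linarith)]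
  have hβ2 : 0 < β / 2 := half_pos hβ
  have hd : dlt α (β / 2) =
      Real.exp (-(2 * β * ∑' z : ℤ, if z = 0 then (0 : ℝ) else |(z : ℝ)| ^ (1 - α))) / 16 := by
    unfold dlt
    rw [Kα_eq hα]
    congr 2
    ring
  set k : ℕ := Nat.log 2 n - 1 with hk
  have hlog2 : 2 ≤ Nat.log 2 n := by
    have : Nat.log 2 4 ≤ Nat.log 2 n := Nat.log_mono_right hn
    have h4 : Nat.log 2 4 = 2 := by
      rw [show 4 = 2 ^ 2 by norm_num]
      exact Nat.log_pow (by norm_num) 2
    omega
  have hk1 : 1 ≤ k := by omega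
  have hpow : 2 * 2 ^ k ≤ n := by
    have h1 : 2 ^ Nat.log 2 n ≤ n := Nat.pow_log_le_self 2 (by omega)
    have h2 : 2 * 2 ^ k = 2 ^ Nat.log 2 n := by
      rw [← pow_succ']
      congr 1
      omega
    omega
  have hV : k * dlt α (β / 2) ≤ VV α (β / 2) n :=
    (VV_lower hα hβ2 k).trans (VV_mono (by linarith) hβ2 hpow)
  have hlt : n < 2 ^ (k + 2) := by
    have h1 : n < 2 ^ (Nat.log 2 n + 1) := Nat.lt_pow_succ_log_self (by norm_num) n
    have h2 : Nat.log 2 n + 1 = k + 2 := by omega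
    rwa [h2] at h1
  have hlogn : Real.log n ≤ 3 * k := by
    have h1 : Real.log n ≤ Real.log ((2 : ℝ) ^ (k + 2)) := by
      apply Real.log_le_log
      · have : (0 : ℝ) < n := by exact_mod_cast (show 0 < n by omega)
        exact this
      · exact_mod_cast hlt.le
    rw [Real.log_pow] at h1
    have h2 : Real.log 2 ≤ 1 := by
      have := Real.log_two_lt_d9
      linarith
    have h3 : (0 : ℝ) ≤ ((k + 2 : ℕ) : ℝ) := Nat.cast_nonneg _
    have h4 : ((k + 2 : ℕ) : ℝ) * Real.log 2 ≤ ((k + 2 : ℕ) : ℝ) * 1 :=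
      mul_le_mul_of_nonneg_left h2 h3
    have h5 : (1 : ℝ) ≤ k := by exact_mod_cast hk1
    push_cast at h1 h4
    linarith
  have hdp := dlt_pos α (β / 2)
  have hfin : dlt α (β / 2) / 3 * Real.log n ≤ k * dlt α (β / 2) := by
    calc dlt α (β / 2) / 3 * Real.log n ≤ dlt α (β / 2) / 3 * (3 * k) :=
          mul_le_mul_of_nonneg_left hlogn (by positivity)
      _ = k * dlt α (β / 2) := by ring
  have e48 : Real.exp (-(2 * β * ∑' z : ℤ, if z = 0 then (0 : ℝ) else |(z : ℝ)| ^ (1 - α))) / 48 =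
      dlt α (β / 2) / 3 := by
    rw [hd]
    ring
  rw [e48]
  have := hfin.trans hV
  linarith

end Pool.Agent.Results.MP_57c4e5_pr.LogLowerBound
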